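import Mathlib
import Pool.Agent.H86.PolyInter

/-!
Intertwined polynomials of the same degree are joined by a chain of strict intertwinings of
length two; in fact they have a common quotient of the same degree.
-/

namespace Pool.Agent.Results.MP_1d703b_an.ChainsSuffice

open Polynomial

variable {K : Type*} [Field K]

/-- `P ≥ Q`: some non-constant polynomial `π` satisfies `π ∘ P = Q ∘ π`. -/
def SemiConj (P Q : K[X]) : Prop :=
  ∃ π : K[X], 0 < π.natDegree ∧ π.comp P = Q.comp π

/-- the `n`-th iterate of `P` under composition -/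
noncomputable def iter (P : K[X]) (n : ℕ) : K[X] := (P.comp)^[n] X

/-- `P ≈ Q`: for some polynomial `R` and some `n ≥ 1`, both `R ≥ Pⁿ` and `R ≥ Qⁿ`. -/
def Intertwined (P Q : K[X]) : Prop :=
  ∃ R : K[X], ∃ n : ℕ, 1 ≤ n ∧ SemiConj R (iter P n) ∧ SemiConj R (iter Q n)

/-- There is a chain `P = P₀, ..., P_N = Q` together with `φ₁, ..., φ_N`, all of degree `d`, such
that `φᵢ ≥ Pᵢ₋₁` and `φᵢ ≥ Pᵢ` for `1 ≤ i ≤ N`. -/
def ChainJoined (d : ℕ) (P Q : K[X]) (N : ℕ) : Prop :=
  ∃ c φ : ℕ → K[X], c 0 = P ∧ c N = Q ∧ (∀ i, i ≤ N → (c i).natDegree = d) ∧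
    ∀ i, 1 ≤ i → i ≤ N → (φ i).natDegree = d ∧ SemiConj (φ i) (c (i - 1)) ∧ SemiConj (φ i) (c i)

theorem iter_succ (P : K[X]) (n : ℕ) : iter P (n + 1) = P.comp (iter P n) := by
  unfold iter
  rw [Function.iterate_succ_apply']

theorem iter_comm (P : K[X]) (n : ℕ) : (iter P n).comp P = P.comp (iter P n) := by
  induction n with
  | zero => simp [iter]
  | succ n ih => rw [iter_succ, comp_assoc, ih]

theorem iter_natDegree (P : K[X]) (n : ℕ) : (iter P n).natDegree = P.natDegree ^ n := by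
  induction n with
  | zero => simp [iter]
  | succ n ih => rw [iter_succ, natDegree_comp, ih, pow_succ']

theorem iter_semi {u P T : K[X]} (h : u.comp P = T.comp u) (n : ℕ) :
    u.comp (iter P n) = (iter T n).comp u := by
  induction n with
  | zero => simp [iter]
  | succ n ih =>
    rw [iter_succ, iter_succ, ← comp_assoc, h, comp_assoc, ih, comp_assoc]

theorem SemiConj.refl (P : K[X]) : SemiConj P P :=
  ⟨X, by rw [natDegree_X]; exact one_pos, by rw [X_comp, comp_X]⟩

theorem SemiConj.trans {P Q R : K[X]} (h1 : SemiConj P Q) (h2 : SemiConj Q R) : SemiConj P R := by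
  obtain ⟨u, hu, e1⟩ := h1
  obtain ⟨v, hv, e2⟩ := h2
  refine ⟨v.comp u, by rw [natDegree_comp]; exact Nat.mul_pos hv hu, ?_⟩
  rw [comp_assoc, e1, ← comp_assoc, e2, comp_assoc]

theorem SemiConj.natDegree_eq {P Q : K[X]} (h : SemiConj P Q) : P.natDegree = Q.natDegree := by
  obtain ⟨u, hu, e⟩ := h
  have := congrArg natDegree e
  rw [natDegree_comp, natDegree_comp, mul_comm] at this
  exact Nat.eq_of_mul_eq_mul_right hu this

/-- Intertwined polynomials of degree at least two have a common quotient. -/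
theorem common [CharZero K] {P Q : K[X]} (hd : P.natDegree = Q.natDegree) (hP : 2 ≤ P.natDegree)
    (h : Intertwined P Q) : ∃ S : K[X], SemiConj P S ∧ SemiConj Q S := by
  obtain ⟨R, n, hn, ⟨α, hα, e1⟩, ⟨β, hβ, e2⟩⟩ := h
  have hlarge : ∀ m, 1 ≤ m → 2 ≤ P.natDegree ^ m := fun m hm =>
    hP.trans (Nat.le_self_pow (by omega) _)
  have hRd : R.natDegree = P.natDegree ^ n := by
    rw [← iter_natDegree]; exact SemiConj.natDegree_eq ⟨α, hα, e1⟩
  obtain ⟨u, v, S, e3, e4, e5, d1, d2⟩ := H86.PolyInter.common_quotient α β (iter P n) (iter Q n) R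
    hα hβ (by rw [hRd]; exact hlarge n hn) e1 e2
  have hlcm : 0 < Nat.lcm α.natDegree β.natDegree := Nat.lcm_pos hα hβ
  have hu : 0 < u.natDegree := Nat.pos_of_ne_zero (by rintro h; rw [h, zero_mul] at d1; omega)
  have hv : 0 < v.natDegree := Nat.pos_of_ne_zero (by rintro h; rw [h, zero_mul] at d2; omega)
  obtain ⟨T, hT⟩ := H86.PolyInter.descend u P (iter P n) S hu
    (by rw [iter_natDegree]; exact hlarge n hn) (iter_comm P n) e4
  obtain ⟨T', hT'⟩ := H86.PolyInter.descend v Q (iter Q n) S hv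
    (by rw [iter_natDegree, ← hd]; exact hlarge n hn) (iter_comm Q n) e5
  have hTS : iter T n = S := by
    apply H86.PolyInter.comp_right_cancel hu
    rw [← e4, iter_semi hT]
  have hTS' : iter T' n = S := by
    apply H86.PolyInter.comp_right_cancel hv
    rw [← e5, iter_semi hT']
  have dT : P.natDegree = T.natDegree := SemiConj.natDegree_eq ⟨u, hu, hT⟩
  have dT' : Q.natDegree = T'.natDegree := SemiConj.natDegree_eq ⟨v, hv, hT'⟩
  obtain ⟨w, V, hw, w1, w2⟩ := H86.PolyInter.quotient_of_commute S T T'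
    (by rw [← hTS, iter_natDegree, ← dT]; exact hlarge n hn) (by omega) (by omega)
    (by rw [← hTS, iter_comm]) (by rw [← hTS', iter_comm])
  exact ⟨V, SemiConj.trans ⟨u, hu, hT⟩ ⟨w, hw, w1⟩, SemiConj.trans ⟨v, hv, hT'⟩ ⟨w, hw, w2⟩⟩

/-- Over a field of characteristic zero, intertwined polynomials `P`, `Q` of the same degree
`d ≥ 2` are joined by a chain of strict intertwinings of length two. -/
theorem result {K : Type*} [Field K] [CharZero K] (d : ℕ) (hd : 2 ≤ d) (P Q : K[X])
    (hP : P.natDegree = d) (hQ : Q.natDegree = d) (h : Intertwined P Q) :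
    (∃ S : K[X], S.natDegree = d ∧ SemiConj P S ∧ SemiConj Q S) ∧ ChainJoined d P Q 2 := by
  obtain ⟨S, h1, h2⟩ := common (hP.trans hQ.symm) (hP ▸ hd) h
  have hS : S.natDegree = d := by rw [← h1.natDegree_eq, hP]
  refine ⟨⟨S, hS, h1, h2⟩, ?_⟩
  refine ⟨fun i => if i = 0 then P else if i = 1 then S else Q, fun i => if i = 1 then P else Q,
    by simp, by simp, ?_, ?_⟩
  · intro i hi
    dsimp only
    split_ifs
    · exact hP
    · exact hS
    · exact hQ
  · intro i h1i hi
    obtain rfl | rfl : i = 1 ∨ i = 2 := by omega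
    · simp only [if_true, Nat.sub_self, one_ne_zero, if_false]
      exact ⟨hP, SemiConj.refl P, h1⟩
    · simp only [OfNat.ofNat_ne_one, if_false, Nat.reduceSub, one_ne_zero, if_true,
        OfNat.ofNat_ne_zero]
      exact ⟨hQ, h2, SemiConj.refl Q⟩

end Pool.Agent.Results.MP_1d703b_an.ChainsSuffice
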